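import Pool.Agent.helper90.ZD.SpecB
import Pool.Agent.helper59.DM.DV

/-!
# Project zd (MP_4467b5_nt), module BR4

The bound `QW W h ≤ C T^ε h S0` for short sums.
-/

set_option autoImplicit false

open Complex MeasureTheory

namespace Pool.Agent.ZD

open Pool.Agent.helper84.DM Pool.Agent.helper78.ED Pool.Agent.DH

theorem BR4_quad (Q a b : ℝ) (ha : 0 ≤ a) (hb : 0 ≤ b) (h : Q ^ 2 ≤ a ^ 2 + b * Q) :
    Q ≤ a + b := by
  by_contra hc
  push Not at hc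
  nlinarith [mul_pos (by linarith : 0 < Q - (a + b)) (by linarith : 0 < Q), mul_nonneg ha hb]

theorem BR4_QW_nonneg (W : Finset ℝ) (L : ℕ) : 0 ≤ QW W L :=
  Finset.sum_nonneg fun _ _ => Finset.sum_nonneg fun _ _ => by positivity

theorem BR4_cauchy (W : Finset ℝ) (f : ℝ → ℝ → ℝ) :
    (∑ t ∈ W, ∑ t' ∈ W, f t t' ^ 2) ^ 2 ≤
      (W.card : ℝ) ^ 2 * ∑ t ∈ W, ∑ t' ∈ W, f t t' ^ 4 := by
  have h := sq_sum_le_card_mul_sum_sq (s := W ×ˢ W) (f := fun p : ℝ × ℝ => f p.1 p.2 ^ 2)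
  rw [Finset.sum_product, Finset.sum_product, Finset.card_product] at h
  have e : ∀ t t' : ℝ, (f t t' ^ 2) ^ 2 = f t t' ^ 4 := fun t t' => by ring
  simp only [e] at h
  push_cast at h
  calc _ ≤ _ := h
    _ = _ := by ring

theorem BR4_split (m : ℕ) (u : ℝ) :
    ‖PL (Finset.Ioc m (64 * m)) u‖ ^ 2 ≤ 2 * ‖PL (IL m) u‖ ^ 2 + 2 * ‖PL (IL (8 * m)) u‖ ^ 2 := by
  have h : PL (Finset.Ioc m (64 * m)) u = PL (IL m) u + PL (IL (8 * m)) u := by
    unfold PL IL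
    rw [show 8 * (8 * m) = 64 * m by ring, ← Finset.sum_union]
    · congr 1
      ext x
      simp only [Finset.mem_Ioc, Finset.mem_union]
      omega
    · rw [Finset.disjoint_left]
      intro x hx hx'
      simp only [Finset.mem_Ioc] at hx hx'
      omega
  rw [h]
  have h1 := norm_add_le (PL (IL m) u) (PL (IL (8 * m)) u)
  have h2 := norm_nonneg (PL (IL m) u + PL (IL (8 * m)) u)
  have h3 : ‖PL (IL m) u + PL (IL (8 * m)) u‖ ^ 2 ≤ (‖PL (IL m) u‖ + ‖PL (IL (8 * m)) u‖) ^ 2 :=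
    pow_le_pow_left₀ h2 h1 2
  nlinarith [sq_nonneg (‖PL (IL m) u‖ - ‖PL (IL (8 * m)) u‖)]

theorem BR4 (h1 : BSQ_stmt) (h2 : BM2_stmt) (h3 : BR1_stmt) : BR4_stmt := by
  intro ε δ hε hδ hδ1
  obtain ⟨C1, T1, hC1, H1⟩ := h3 (ε / 4) δ (by linarith) hδ
  obtain ⟨Cm, hCm, Hm⟩ := h2 (ε / 4) (by linarith)
  obtain ⟨Cd, hCd, Hd⟩ := Pool.Agent.helper84.DM.divisor_bound (ε / 4 / 5) (by linarith)
  refine ⟨4 * Cm * (130 * C1 * Cd ^ 2 + 1), max T1 1024, by positivity, ?_⟩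
  intro T hT W hW h hh hhG
  have hT1 : T1 ≤ T := le_trans (le_max_left _ _) hT
  have hT2 : 1024 ≤ T := le_trans (le_max_right _ _) hT
  have hT0 : 0 < T := by linarith
  have hT1' : 1 ≤ T := by linarith
  set G : ℝ := T ^ ((1 + δ) / 3) with hG
  have hG1 : 1 ≤ G := Real.one_le_rpow hT1' (by linarith)
  have hGT : G ≤ T := by
    calc G ≤ T ^ (1 : ℝ) := Real.rpow_le_rpow_of_exponent_le hT1' (by linarith)
      _ = T := Real.rpow_one T
  have hG3 : G ^ 3 = T ^ (1 + δ) := by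
    rw [hG, ← Real.rpow_natCast, ← Real.rpow_mul hT0.le]
    congr 1
    push_cast
    ring
  set L : ℕ := 2 * ⌈G⌉₊ with hL
  have hL2G : 2 * G ≤ (L : ℝ) := by
    rw [hL]
    push_cast
    linarith [Nat.le_ceil G]
  have hL4G : (L : ℝ) ≤ 4 * G := by
    rw [hL]
    push_cast
    linarith [Nat.ceil_lt_add_one (by linarith : 0 ≤ G)]
  have hLpos : (0 : ℝ) < L := by linarith
  have hL1 : 1 ≤ L := by
    have : (1 : ℝ) ≤ L := by linarith
    exact_mod_cast this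
  have hhL : h ≤ L := by
    have : (h : ℝ) ≤ L := le_trans hhG hL2G
    exact_mod_cast this
  have hLT : (L : ℝ) ≤ 4 * T := by linarith
  -- size bounds
  have hT3 : 1024 * T ^ 2 ≤ T ^ 3 := by nlinarith [sq_nonneg T]
  have hT35 : T ^ 3 ≤ T ^ 5 := pow_le_pow_right₀ hT1' (by norm_num)
  have hT56 : T ^ 5 ≤ T ^ 6 := pow_le_pow_right₀ hT1' (by norm_num)
  have hLsq : (L : ℝ) ^ 2 ≤ 16 * T ^ 2 := by nlinarith
  have hM64 : 64 * (L : ℝ) ^ 2 ≤ T ^ 5 := by linarith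
  have hM8 : 8 * (L : ℝ) ^ 2 ≤ T ^ 5 := by nlinarith [sq_nonneg (L : ℝ)]
  have hM1 : (L : ℝ) ^ 2 ≤ T ^ 5 := by nlinarith [sq_nonneg (L : ℝ)]
  have hLle : (L : ℝ) ≤ L ^ 2 := by
    have : (1 : ℝ) ≤ L := by exact_mod_cast hL1
    nlinarith
  have hL5 : (L : ℝ) ≤ T ^ 5 := le_trans hLle hM1
  have hL6 : (L : ℝ) ≤ T ^ 6 := le_trans hL5 hT56
  have hML : T ^ (1 + δ) ≤ (L : ℝ) ^ 2 * L := by
    rw [← hG3]
    have h8 : (2 * G) ^ 3 ≤ (L : ℝ) ^ 3 := pow_le_pow_left₀ (by linarith) hL2G 3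
    have h9 : 0 ≤ G ^ 3 := by positivity
    nlinarith
  have hLcube : (0 : ℝ) ≤ (L : ℝ) ^ 2 * L := by positivity
  -- abbreviations
  set R : ℝ := (W.card : ℝ) with hR
  have hR0 : 0 ≤ R := Nat.cast_nonneg _
  set Q : ℝ := QW W L with hQ
  have hQ0 : 0 ≤ Q := BR4_QW_nonneg W L
  set τ : ℝ := T ^ (ε / 4) with hτ
  have hτ1 : 1 ≤ τ := Real.one_le_rpow hT1' (by linarith)
  have hτ0 : 0 < τ := by linarith
  -- reflection
  have hr1 : QW W (L ^ 2) ≤ C1 * τ * (R * (L : ℝ) ^ 4 + L * Q) := by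
    have := H1 T hT1 W hW (L ^ 2) L (Nat.one_le_pow _ _ hL1) hL1 (by push_cast; exact hM1) hL5
      (by push_cast; exact hML)
    push_cast at this
    refine le_of_mul_le_mul_left (le_trans this (le_of_eq ?_)) hLpos
    ring
  have hr2 : QW W (8 * L ^ 2) ≤ C1 * τ * (64 * (R * (L : ℝ) ^ 4) + 8 * (L * Q)) := by
    have := H1 T hT1 W hW (8 * L ^ 2) L (by have := Nat.one_le_pow 2 L hL1; omega) hL1
      (by push_cast; exact hM8) hL5 (by push_cast; nlinarith)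
    push_cast at this
    refine le_of_mul_le_mul_left (le_trans this (le_of_eq ?_)) hLpos
    ring
  -- fourth moment
  have hD : ∀ k ∈ Finset.Ioc (L ^ 2) (64 * L ^ 2), d k ≤ Cd * τ := by
    intro k hk
    rw [Finset.mem_Ioc] at hk
    have hk1 : 1 ≤ k := by omega
    refine le_trans (Hd k hk1) (mul_le_mul_of_nonneg_left ?_ hCd.le)
    have hkT : (k : ℝ) ≤ T ^ (5 : ℕ) := by
      have : (k : ℝ) ≤ 64 * (L : ℝ) ^ 2 := by exact_mod_cast hk.2
      linarith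
    calc (k : ℝ) ^ (ε / 4 / 5) ≤ (T ^ (5 : ℕ)) ^ (ε / 4 / 5) :=
          Real.rpow_le_rpow (Nat.cast_nonneg _) hkT (by positivity)
      _ = τ := by
          rw [hτ, ← Real.rpow_natCast, ← Real.rpow_mul hT0.le]
          congr 1
          push_cast
          ring
  have hB := h1 W (IL L) (Finset.Ioc (L ^ 2) (64 * L ^ 2)) (Cd * τ) (by simp)
    (by
      intro m hm n hn
      unfold IL at hm hn
      rw [Finset.mem_Ioc] at hm hn ⊢
      constructor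
      · nlinarith
      · calc m * n ≤ (8 * L) * (8 * L) := Nat.mul_le_mul hm.2 hn.2
          _ = 64 * L ^ 2 := by ring) hD
  have hK : ∑ t ∈ W, ∑ t' ∈ W, ‖PL (Finset.Ioc (L ^ 2) (64 * L ^ 2)) (t - t')‖ ^ 2 ≤
      2 * QW W (L ^ 2) + 2 * QW W (8 * L ^ 2) := by
    unfold QW
    rw [Finset.mul_sum, Finset.mul_sum, ← Finset.sum_add_distrib]
    refine Finset.sum_le_sum fun t _ => ?_
    rw [Finset.mul_sum, Finset.mul_sum, ← Finset.sum_add_distrib]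
    exact Finset.sum_le_sum fun t' _ => BR4_split (L ^ 2) (t - t')
  have hC := BR4_cauchy W (fun t t' => ‖PL (IL L) (t - t')‖)
  have hQ2 : Q ^ 2 ≤ R ^ 2 * ((Cd * τ) ^ 2 * (2 * QW W (L ^ 2) + 2 * QW W (8 * L ^ 2))) := by
    refine le_trans hC (mul_le_mul_of_nonneg_left ?_ (by positivity))
    exact le_trans hB (mul_le_mul_of_nonneg_left hK (by positivity))
  set E : ℝ := (130 * C1 * Cd ^ 2 + 1) * τ ^ 3 with hE
  have hE1 : 1 ≤ E := by
    have h3 : 1 ≤ τ ^ 3 := one_le_pow₀ hτ1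
    have h4 : 0 ≤ 130 * C1 * Cd ^ 2 := by positivity
    rw [hE]
    nlinarith
  have hLQ : 0 ≤ (L : ℝ) * Q := by positivity
  have hRL : 0 ≤ R * (L : ℝ) ^ 4 := by positivity
  have hQ3 : Q ^ 2 ≤ E * (R ^ 3 * (L : ℝ) ^ 4) + E * (R ^ 2 * L) * Q := by
    have hs : 2 * QW W (L ^ 2) + 2 * QW W (8 * L ^ 2) ≤
        130 * (C1 * τ) * (R * (L : ℝ) ^ 4 + L * Q) := by
      have h5 : 0 ≤ C1 * τ := by positivity
      have h6 : 0 ≤ C1 * τ * (L * Q) := by positivity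
      nlinarith
    calc Q ^ 2 ≤ _ := hQ2
      _ ≤ R ^ 2 * ((Cd * τ) ^ 2 * (130 * (C1 * τ) * (R * (L : ℝ) ^ 4 + L * Q))) := by
          refine mul_le_mul_of_nonneg_left (mul_le_mul_of_nonneg_left hs ?_) ?_ <;> positivity
      _ = (130 * C1 * Cd ^ 2) * τ ^ 3 * (R ^ 3 * (L : ℝ) ^ 4 + R ^ 2 * L * Q) := by ring
      _ ≤ E * (R ^ 3 * (L : ℝ) ^ 4 + R ^ 2 * L * Q) := by
          refine mul_le_mul_of_nonneg_right ?_ (by positivity)
          rw [hE]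
          have : 0 ≤ τ ^ 3 := by positivity
          nlinarith
      _ = _ := by ring
  set P : ℝ := R ^ (3 / 2 : ℝ) with hP
  have hP0 : 0 ≤ P := Real.rpow_nonneg hR0 _
  have hP2 : P ^ 2 = R ^ 3 := by
    rw [hP, ← Real.rpow_natCast, ← Real.rpow_mul hR0, ← Real.rpow_natCast]
    norm_num
  have hQ4 : Q ≤ E * P * (L : ℝ) ^ 2 + E * (R ^ 2 * L) := by
    refine BR4_quad Q _ _ (by positivity) (by positivity) ?_
    refine le_trans hQ3 (add_le_add ?_ le_rfl)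
    have h7 : (E * P * (L : ℝ) ^ 2) ^ 2 = E * (E * (R ^ 3 * (L : ℝ) ^ 4)) := by
      rw [← hP2]
      ring
    rw [h7]
    have h8 : 0 ≤ E * (R ^ 3 * (L : ℝ) ^ 4) := by positivity
    nlinarith
  have hfin := Hm T hT1' W h L hh hhL hL6
  have hh0 : (0 : ℝ) ≤ h := Nat.cast_nonneg _
  have hfin2 : QW W h ≤ Cm * τ * h * (E * (P * L + R ^ 2)) := by
    refine le_of_mul_le_mul_left (le_trans hfin ?_) hLpos
    calc Cm * τ * h * QW W L ≤ Cm * τ * h * (E * P * (L : ℝ) ^ 2 + E * (R ^ 2 * L)) :=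
          mul_le_mul_of_nonneg_left hQ4 (by positivity)
      _ = _ := by ring
  have hS : P * L + R ^ 2 ≤ 4 * S0 δ T W := by
    unfold S0
    rw [← hR, ← hP, ← hG]
    have h9 : P * L ≤ P * (4 * G) := mul_le_mul_of_nonneg_left hL4G hP0
    nlinarith [sq_nonneg R]
  calc QW W h ≤ _ := hfin2
    _ ≤ Cm * τ * h * (E * (4 * S0 δ T W)) := by
        refine mul_le_mul_of_nonneg_left (mul_le_mul_of_nonneg_left hS ?_) ?_ <;> positivity
    _ = 4 * Cm * (130 * C1 * Cd ^ 2 + 1) * (τ ^ 4) * h * S0 δ T W := by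
        rw [hE]
        ring
    _ = _ := by
        have : τ ^ 4 = T ^ ε := by
          rw [hτ, ← Real.rpow_natCast, ← Real.rpow_mul hT0.le]
          congr 1
          push_cast
          ring
        rw [this]

end Pool.Agent.ZD
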